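import Pool.Agent.R957.BnG.Est

namespace Pool.Agent.Results.MP_e5a0e3_pr.PercolatesAtKEqualsD

open Pool.Agent.R957.BnG

/-- For every `d ≥ 4000002` the bidirectional `k`-neighbour graph with `k = d` percolates. -/
theorem result : ∀ d : ℕ, 4000002 ≤ d → ∀ h : d ≤ 2 * d, 0 < thetaB d d h := by
  intro d hd h
  obtain ⟨m, rfl⟩ : ∃ m, d = m + 2 := ⟨d - 2, by omega⟩
  exact main (m := m) (by omega)

end Pool.Agent.Results.MP_e5a0e3_pr.PercolatesAtKEqualsD
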